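import Pool.Agent.Helper7_PAR.Neg

/-!
# MP_0fc649_lc: NP languages whose witness sets are closed under a Boolean operation

Part 1: if the language `L` has an NP verifier such that for every `x ∈ L` the set of the accepted
witnesses, a set of Boolean vectors, is closed under some Boolean operation (of any arity, it may
depend on `x` in an arbitrary way) which is neither a projection nor a negated projection, then `L` is
in parity-P.  Part 2: this is the exact borderline: if the same were true for one projection or
negated projection then every language in NP would be in parity-P.

Proof of part 1.  By Post's analysis such a set contains a constant vector or is closed under and, or,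
majority or minority.  In each case there is a poset of certificates, decidable in polynomial time
and of polynomial height, with an element comparable to all the others; the number of its nonempty
chains is odd.  The certificates are: the witnesses with the coordinatewise order (constants, and,
or); tables of the projections to pairs of coordinates such that the greedy completion of every
entry is accepted (majority); reduced frames of affine spaces (minority).  The three posets are
stacked one above the other, so the verifier need not know which case occurs.
-/

set_option autoImplicit false

namespace Pool.Agent.Results.MP_0fc649_lc.BooleanOperations

open Pool.Agent.PAR

theorem result :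
    (∀ (L : Set Word) (V : Word × Word → Bool) (p : Polynomial ℕ), IsVerifier L V p →
      (∀ x ∈ L, ∃ (k : ℕ) (f : (Fin k → Bool) → Bool), ¬ IsProj f ∧
        ClosedUnder f (sols V p x)) → InParityP L) ∧
    ∀ (k : ℕ) (f : (Fin k → Bool) → Bool), IsProj f →
      (∀ (L : Set Word) (V : Word × Word → Bool) (p : Polynomial ℕ), IsVerifier L V p →
        (∀ x, ClosedUnder f (sols V p x)) → InParityP L) →
      ∀ (L : Set Word) (V : Word × Word → Bool) (p : Polynomial ℕ), IsVerifier L V p →
        InParityP L :=
  ⟨fun L V p h hcl => closed_main L V p h hcl, fun _ f hf h => proj_case f hf h⟩

end Pool.Agent.Results.MP_0fc649_lc.BooleanOperations
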