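import Pool.Agent.Helper33_LAT.SRows

/-!
# MP_0fc649_lc: the closest vector problem with factor sqrt (1 + n (n + 1) / 2) is in SPP

The promise problem `GapCVP` with factor `g n = sqrt (1 + n (n + 1) / 2)` (at most `n` for
`n ≥ 2`): given `n` linearly independent integer vectors (the rows of a matrix `A`), an integer
vector `v` and an integer `D`, distinguish the instances with a lattice vector `u` with
`|v - u|^2 ≤ D` from those with `|v - u|^2 > (g n)^2 D` for all lattice vectors `u`.  Every language
which can be reduced to it is in NP ∩ co-NP.  Here: every such language is in SPP, hence in
parity-P.

Proof.  For a subgroup `M` of the lattice `L` let `gd M` be the Gram determinant of a basis of `M`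
(`gd 0 = 1`), and `phi M = (4 D) ^ rank M / gd M`.  The function `phi` is log-supermodular; let `T`
be its largest maximizer.  A certificate is a chain of subgroups of `L` with a marked element `M`
such that `phi M ≥ 1`, `phi M < phi M'` for the elements `M'` of the chain below `M` and
`phi M ≤ phi M'` for those above `M`, together with a coset `u + M` of `M` in `L` such that `v` has
distance at most `sqrt D` from its real span.  For `M ≠ T` one of the two sets of subgroups from
which the chain below and above `M` is taken is nonempty and contractible, so the chains of odd and
of even length are equally many; for `M = T` there is just one chain, of length one.  So the number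
of the certificates with a chain of odd length minus the number of the others is the number of the
cosets for `M = T`.  This number is at most one, since `L / T` has no nonzero vector of length at
most `2 sqrt D`, by the maximality of `T`, and it is one if `v` has distance at most `sqrt D` from
`L`.  Conversely, if there is a coset for `T`, then `v` has
distance at most `g n * sqrt D` from `L`: all quotients `T / M` have
`gd (T / M) ≤ (4 D) ^ rank (T / M)`, so Minkowski's theorem and the nearest plane algorithm give
points of `T` at distance at most `sqrt (n (n + 1) / 2 * D)` from all points of its real span.  The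
certificates are the accepted words of a polynomial-time predicate: Hermite normal forms, with
unique certificates for the Gram determinants, the inclusions and the distance.
-/

set_option autoImplicit false

namespace Pool.Agent.Results.MP_0fc649_lc.GapCVP

open Pool.Agent.PAR Pool.Agent.LAT

/-- The promise problem with the positive words `Y` and the negative words `N` has a polynomial-time
many-one reduction `f` to GapCVP with factor `sqrt (1 + n (n + 1) / 2)`: for all words `x` in `Y`
or `N`, `f x` is the code of an instance (`n` linearly independent integer vectors with `m`
coordinates, the rows of `A`, an integer vector `v` and an integer `D`) such that some vector `u` of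
the lattice has `|v - u|^2 ≤ D` if `x ∈ Y`, and no vector `u` of the lattice has
`|v - u|^2 ≤ (1 + n (n + 1) / 2) D` if `x ∈ N`. -/
def ReducesToGapCVP (Y N : Set Word) : Prop :=
  ∃ f : Word → Word, PolyWord f ∧ ∀ x ∈ Y ∪ N,
    ∃ (n m w : ℕ) (A : Matrix (Fin n) (Fin m) ℤ) (v : Fin m → ℤ) (D : ℤ),
      IsCvp n m w A v D ∧ f x = encC n m w A v D ∧ (x ∈ Y → Close A v D) ∧
      (x ∈ N → ¬ Close A v ((1 + n * (n + 1) / 2 : ℕ) * D))

/-- **GapCVP with factor `sqrt (1 + n (n + 1) / 2)` is in SPP, hence in parity-P.**  Every promise
problem `(Y, N)` which can be reduced to it is in SPP, and it is separated by a language in parity-P.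
(For a language `L` take `Y = L` and `N` its complement: `L` is in SPP and in parity-P.) -/
theorem result (Y N : Set Word) (h : ReducesToGapCVP Y N) :
    InSPP Y N ∧ ∃ K : Set Word, InParityP K ∧ (∀ x ∈ Y, x ∈ K) ∧ ∀ x ∈ N, x ∉ K := by
  obtain ⟨f, hf, h⟩ := h
  have h1 : InSPP Y N := H33.cvp_red_ Y N f hf h
  exact ⟨h1, H33.parity_of_spp h1⟩

end Pool.Agent.Results.MP_0fc649_lc.GapCVP
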