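import Pool.Agent.Helper33_LAT.Sg1

/-!
# MP_0fc649_lc: the shortest vector problem with factor sqrt n is in SPP, hence in parity-P

The promise problem `GapSVP` with factor `sqrt n`: given `n` linearly independent integer vectors
(the rows of a matrix `A`) and an integer `D`, distinguish the instances whose lattice has a nonzero
vector `v` with `|v|^2 ≤ D` from those whose lattice has no nonzero vector with `|v|^2 ≤ n D`.  By
Aharonov and Regev (2005) every language which can be reduced to it is in NP ∩ co-NP.  Here: every
such language is in SPP, hence in parity-P.

Proof.  For a subgroup `M` of `ℤ^m` let `gd M` be the Gram determinant of a basis of `M`.  Let `P` be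
the set of the nonzero subgroups `M` of the lattice with `gd M ≤ D ^ rank M`.  The function
`M ↦ D ^ rank M / gd M` is log-supermodular; if `T` is a maximizer on `P`, then `M + T ∈ P` for all
`M ∈ P`, so `M ≤ M + T ≥ T` contracts `P`, and of the nonempty chains of `P` one more has odd length
than even length if `P` is nonempty.  `P` is nonempty if there is a nonzero `v` with `|v|^2 ≤ D`;
conversely Minkowski's theorem gives for `M ∈ P` a nonzero vector of `M` with `|v|^2 ≤ n D`.  The
chains of `P` are the accepted words of a polynomial-time predicate: Hermite normal forms, with
unique certificates for the Gram determinants and for the inclusions.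
-/

set_option autoImplicit false

namespace Pool.Agent.Results.MP_0fc649_lc.GapSVP

open Pool.Agent.PAR Pool.Agent.LAT

/-- The promise problem with the positive words `Y` and the negative words `N` has a polynomial-time
many-one reduction `f` to GapSVP with factor `sqrt n`: for all words `x` in `Y` or `N`, `f x` is the
code of an instance (`n` linearly independent integer vectors with `m` coordinates, the rows of
`A`, and an integer `D`), whose lattice has a nonzero vector with square of the norm at most `D` if
`x ∈ Y`, and has no nonzero vector with square of the norm at most `n D` if `x ∈ N`. -/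
def ReducesToGapSVP (Y N : Set Word) : Prop :=
  ∃ f : Word → Word, PolyWord f ∧ ∀ x ∈ Y ∪ N, ∃ (n m w : ℕ) (A : Matrix (Fin n) (Fin m) ℤ) (D : ℤ),
    IsInst n m w A D ∧ f x = enc n m w A D ∧ (x ∈ Y → Short A D) ∧ (x ∈ N → ¬ Short A (n * D))

/-- **GapSVP with factor `sqrt n` is in SPP, hence in parity-P.**  Every promise problem `(Y, N)`
which can be reduced to it is in SPP, and it is separated by a language in parity-P.  (For a language
`L` take `Y = L` and `N` its complement: `L` is in SPP and in parity-P.) -/
theorem result (Y N : Set Word) (h : ReducesToGapSVP Y N) :
    InSPP Y N ∧ ∃ K : Set Word, InParityP K ∧ (∀ x ∈ Y, x ∈ K) ∧ ∀ x ∈ N, x ∉ K := by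
  obtain ⟨f, hf, h⟩ := h
  have h1 : InSPP Y N := H33.svp_red Y N f hf h
  exact ⟨h1, H33.parity_of_spp h1⟩

end Pool.Agent.Results.MP_0fc649_lc.GapSVP
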