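import Pool.Agent.Helper67_COSB.Final

/-!
# MP_0fc649_lc: witness sets which are cosets in linear groups

`PolyPair`, `InParityP` (file `Pool/Agent/Helper7_PAR/Defs.lean`): predicates of pairs of words
decided in polynomial time by Mathlib's Turing machines, and the class parity-P.  `Heap W`
(file `Pool/Agent/COS/Defs.lean`): `a b⁻¹ c ∈ W` for `a, b, c ∈ W`, that is `W` is empty or a coset
of a subgroup.  `modSols V p d k x` (file `Pool/Agent/COSB/Defs.lean`): the invertible matrices `A`
of size `d |x|` over `Z / p^(k |x|)` such that `V` accepts `x` and the entries of `A`.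
`fldSols c V d x` (file `Pool/Agent/COSB/DefsE.lean`): the same over a finite field whose elements
are coded by `c`; `TensorIsoE c`: the pairs of isomorphic `n × n × n` tensors over this field.
`intSols V d w x` (file `Pool/Agent/COSB/DefsL.lean`): the same over the integers, the entries of
`A` and `A⁻¹` in the interval from `- 2^w` to `2^w - 1`, `w = w |x|`; `PosF`: positive definite
symmetric; `IsoF Q Q'`: `U Q Uᵀ = Q'` for some `U` in `GL_n(Z)`; `encL n w Q Q'`: the code of the
pair `(Q, Q')`.

Proof.  `p = 2`: let `a, a'` be representatives (column-reduced matrices with entries `0`, `1`) of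
the cosets of the unitriangular matrices in `GL_n(F_2)`; the index is odd, so for a nonempty heap
`W` the number of the pairs `(a, a')` such that `a'⁻¹ w a` is unitriangular modulo two for some
`w ∈ W` is odd.  For such a pair the binary digits of the entries of `a'⁻¹ w a` (the lowest digits
of all entries row by row, then the next digits, and so on) form a homogeneous set of words, and its
frames (unique for the set of the pivots, an even number for the other sets) are odd in number.
Odd `p` and finite fields of odd characteristic: pass to a finite field `F` with `|F| ≡ 1` modulo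
`4`; the index of the monomial matrices in `GL_n(F)` is odd, the cosets are the unordered sets of
`n` independent lines; monomial matrices act faithfully on `n |F|` points by permutations, which
leads to `GL_(n |F|)(F_2)`; the kernel of the reduction modulo `p` has odd order.  Integer matrices
are determined by their residues modulo a power of two.
-/

namespace Pool.Agent.Results.MP_0fc649_lc.LinearCosets

open Pool.Agent.PAR Pool.Agent.COS Pool.Agent.COSB

/-- Let the witness sets `W_x`, `x ∈ P`, of a polynomial-time predicate `V` be sets of invertible
matrices over `Z / p^k`, over a finite field or over the integers which are closed under `a b⁻¹ c`.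
Then there is `L` in parity-P such that for `x ∈ P`: `x ∈ L` if and only if `W_x` is nonempty.  In
particular tensor isomorphism over every finite field is in parity-P, and so is lattice isomorphism
for lattices given by positive definite integral Gram matrices. -/
theorem result :
    (∀ p : ℕ, p.Prime → ∀ (V : Word × Word → Bool) (d k : Polynomial ℕ), PolyPair V →
      (∀ n, 0 < k.eval n) → ∀ P : Set Word, (∀ x ∈ P, Heap (modSols V p d k x)) →
        ∃ L, InParityP L ∧ ∀ x ∈ P, (x ∈ L ↔ (modSols V p d k x).Nonempty)) ∧
    (∀ (E : Type) [Field E] [Finite E] (c : E → Word) (V : Word × Word → Bool)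
      (d : Polynomial ℕ), PolyPair V → ∀ P : Set Word, (∀ x ∈ P, Heap (fldSols c V d x)) →
        ∃ L, InParityP L ∧ ∀ x ∈ P, (x ∈ L ↔ (fldSols c V d x).Nonempty)) ∧
    (∀ (V : Word × Word → Bool) (d w : Polynomial ℕ), PolyPair V → ∀ P : Set Word,
      (∀ x ∈ P, Heap (intSols V d w x)) →
        ∃ L, InParityP L ∧ ∀ x ∈ P, (x ∈ L ↔ (intSols V d w x).Nonempty)) ∧
    (∀ (E : Type) [Field E] [Finite E] (c : E → Word) (l : ℕ), Function.Injective c →
      (∀ e, (c e).length = l) → InParityP (TensorIsoE c)) ∧
    ∃ L : Set Word, InParityP L ∧ ∀ (n w : ℕ) (Q Q' : Matrix (Fin n) (Fin n) ℤ), PosF Q →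
      PosF Q' → (∀ i j, |Q i j| < 2 ^ w) → (∀ i j, |Q' i j| < 2 ^ w) →
        (encL n w Q Q' ∈ L ↔ IsoF Q Q') :=
  H67.final

end Pool.Agent.Results.MP_0fc649_lc.LinearCosets
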